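import Pool.Agent.Q155.GN.Stm2

set_option autoImplicit false

/-! # Project GN: `S_ABS` -/

namespace Pool.Agent.Q261.GN

open Finset Filter Topology
open Q155.GN (LawC S_ABS)
open Q155.NL (Nl sh me abs_law exists_B2 mean_al_le markov sum_two_pow sh_nonneg FI_nonneg avg_sums avg_mulc avg_mulcl)
open Q155.KG (FI al al_nonneg al_le avg_nonneg)
open Pool.Agent.Q1.PT (avg avg_mono avg_const avg_add avg_sub)
open scoped Classical

/-- the indicator of the class -/
noncomputable def ic {I : Type} (cl : I → ZMod 4) (c : ZMod 4) (i : I) : ℝ := if cl i = c then 1 else 0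

section
variable {I : Type} (cl : I → ZMod 4)

lemma ic_nonneg (c : ZMod 4) (i : I) : 0 ≤ ic cl c i := by
  unfold ic; split_ifs <;> norm_num

lemma ic_le (c : ZMod 4) (i : I) : ic cl c i ≤ 1 := by
  unfold ic; split_ifs <;> norm_num

lemma ic_sum (i : I) : ∑ c, ic cl c i = 1 := by
  unfold ic
  rw [Finset.sum_ite_eq, if_pos (Finset.mem_univ _)]

end

section
variable {I : Type} [Fintype I] [Nonempty I] (cl : I → ZMod 4)

lemma share_eq (K : I → ℕ) (b : ℕ) : avg (fun i => FI b (K i)) - al b =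
    ∑ c, avg (fun i => ic cl c i * (FI b (K i) - al b)) := by
  have h1 : avg (fun i => FI b (K i)) - al b = avg (fun i => FI b (K i) - al b) := by
    rw [avg_sub, avg_const]
  rw [h1, ← avg_sums]
  congr 1
  funext i
  rw [← Finset.sum_mul, ic_sum, one_mul]

lemma share_sq (K : I → ℕ) (b : ℕ) : (avg (fun i => FI b (K i)) - al b) ^ 2 ≤
    4 * ∑ c, (avg (fun i => ic cl c i * (FI b (K i) - al b))) ^ 2 := by
  rw [share_eq cl]
  have h := sq_sum_le_card_mul_sum_sq (s := (univ : Finset (ZMod 4)))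
    (f := fun c => avg (fun i => ic cl c i * (FI b (K i) - al b)))
  have e : (univ : Finset (ZMod 4)).card = 4 := rfl
  rw [e] at h
  exact_mod_cast h

lemma al_le_one (b : ℕ) : al b ≤ 1 := by
  refine (al_le b).trans ?_
  rw [div_le_one (by positivity)]
  exact one_le_pow₀ (by norm_num)

lemma avg_ic_mul (K : I → ℕ) (b : ℕ) (c : ZMod 4) : avg (fun i => ic cl c i * FI b (K i)) =
    avg (fun i => ic cl c i * (FI b (K i) - al b)) + al b * avg (fun i => ic cl c i) := by
  rw [← avg_mulcl, ← avg_add]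
  congr 1
  funext i
  ring

/-- pointwise: the law in all classes -/
lemma lawC_of {K : I → ℕ} {ε ε₁ δ η : ℝ} {B : ℕ} (hε : 0 < ε) (hε1 : ε ≤ 1) (hB1 : 3 / 2 ^ B < ε / 8)
    (hB2 : 2 - ε / 8 < ∑ b ∈ range B, (2 : ℝ) ^ b * al b) (hε₁0 : 0 < ε₁) (hε₁ : 2 ^ B * ε₁ ≤ ε / 8)
    (hδ0 : 0 < δ) (hδ : 2 ^ B * δ ≤ ε / 16) (hη0 : 0 < η) (hη : 2 ^ B * η ≤ ε / 16) (hN : Nl K ε₁)
    (hX : ∀ b ∈ range B, ∀ c, |avg (fun i => ic cl c i * (FI b (K i) - al b))| ≤ δ)
    (hcl : ∀ c, |avg (fun i => ic cl c i) - 1 / 4| ≤ η) : LawC cl K ε := by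
  have hp : (1 : ℝ) ≤ 2 ^ B := one_le_pow₀ (by norm_num)
  have hε₁' : ε₁ ≤ ε / 8 := by nlinarith
  have hδ' : δ ≤ ε / 16 := by nlinarith
  have hη' : η ≤ ε / 16 := by nlinarith
  -- the small b
  have hsm : ∀ b ∈ range B, ∀ c, |avg (fun i => ic cl c i * FI b (K i)) - al b / 4| ≤ δ + η := by
    intro b hb c
    rw [avg_ic_mul]
    have e : avg (fun i => ic cl c i * (FI b (K i) - al b)) + al b * avg (fun i => ic cl c i) - al b / 4 =
        avg (fun i => ic cl c i * (FI b (K i) - al b)) + al b * (avg (fun i => ic cl c i) - 1 / 4) := by ring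
    rw [e]
    refine (abs_add_le _ _).trans (add_le_add (hX b hb c) ?_)
    rw [abs_mul, abs_of_nonneg (al_nonneg b)]
    calc al b * |avg (fun i => ic cl c i) - 1 / 4| ≤ 1 * η :=
          mul_le_mul (al_le_one b) (hcl c) (abs_nonneg _) zero_le_one
      _ = η := one_mul _
  have hnn : ∀ b c, 0 ≤ avg (fun i => ic cl c i * FI b (K i)) := fun b c =>
    avg_nonneg fun i => mul_nonneg (ic_nonneg cl c i) (FI_nonneg _ _)
  have hle : ∀ b c, avg (fun i => ic cl c i * FI b (K i)) ≤ avg (fun i => FI b (K i)) := fun b c =>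
    avg_mono fun i => by
      have h1 := FI_nonneg b (K i)
      have h2 := ic_le cl c i
      nlinarith
  refine fun c => ⟨(hcl c).trans (by linarith), fun b => ?_, ?_⟩
  · show |avg (fun i => ic cl c i * FI b (K i)) - al b / 4| ≤ ε
    by_cases hb : b ∈ range B
    · exact (hsm b hb c).trans (by linarith)
    · have h1 := abs_lt.1 (hN.1 b)
      have h2 := hnn b c
      have h3 := hle b c
      have h4 := al_le b
      have h5 := al_nonneg b
      have h6 : (2 : ℝ) ^ B ≤ 2 ^ b := pow_le_pow_right₀ (by norm_num) (not_lt.1 fun h => hb (Finset.mem_range.2 h))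
      have h7 : 1 / (2 : ℝ) ^ b ≤ 1 / 2 ^ B := div_le_div_of_nonneg_left (by norm_num) (by positivity) h6
      have h8 : 1 / (2 : ℝ) ^ B ≤ 3 / 2 ^ B := div_le_div_of_nonneg_right (by norm_num) (by positivity)
      rw [abs_le]
      constructor <;> linarith
  · show |avg (fun i => ic cl c i * (K i : ℝ)) - 1 / 2| ≤ ε
    -- the part of the small b
    obtain ⟨S, hS⟩ : ∃ S, S = ∑ b ∈ range B, 2 ^ b * avg (fun i => ic cl c i * FI b (K i)) := ⟨_, rfl⟩
    obtain ⟨T, hT⟩ : ∃ T, T = ∑ b ∈ range B, (2 : ℝ) ^ b * al b := ⟨_, rfl⟩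
    have hS1 : |S - T / 4| ≤ ε / 8 := by
      have e : S - T / 4 = ∑ b ∈ range B, 2 ^ b * (avg (fun i => ic cl c i * FI b (K i)) - al b / 4) := by
        rw [hS, hT, Finset.sum_div, ← Finset.sum_sub_distrib]
        exact Finset.sum_congr rfl fun b _ => by ring
      rw [e]
      refine (Finset.abs_sum_le_sum_abs _ _).trans ?_
      have h4 : ∀ b ∈ range B, |(2 : ℝ) ^ b * (avg (fun i => ic cl c i * FI b (K i)) - al b / 4)| ≤ 2 ^ b * (δ + η) := by
        intro b hb
        rw [abs_mul, abs_of_nonneg (by positivity : (0 : ℝ) ≤ 2 ^ b)]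
        exact mul_le_mul_of_nonneg_left (hsm b hb c) (by positivity)
      refine (Finset.sum_le_sum h4).trans ?_
      rw [← Finset.sum_mul]
      have h5 := mul_le_mul_of_nonneg_right (sum_two_pow B) (by positivity : 0 ≤ δ + η)
      linarith
    -- the tail
    have hpt : ∀ (i : I), ∑ b ∈ range B, 2 ^ b * FI b (K i) ≤ (K i : ℝ) := by
      intro i
      by_cases h : ∃ b ∈ range B, K i = 2 ^ b
      · obtain ⟨b, hb, hK⟩ := h
        rw [Finset.sum_eq_single_of_mem b hb]
        · unfold FI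
          rw [if_pos hK, hK]
          push_cast
          rw [mul_one]
        · intro b' _ hne
          unfold FI
          rw [if_neg, mul_zero]
          intro h'
          rw [hK] at h'
          exact hne (Nat.pow_right_injective le_rfl h').symm
      · push Not at h
        rw [Finset.sum_eq_zero]
        · exact Nat.cast_nonneg _
        · intro b hb
          unfold FI
          rw [if_neg (h b hb), mul_zero]
    have hSa : S = avg (fun i => ic cl c i * ∑ b ∈ range B, 2 ^ b * FI b (K i)) := by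
      rw [hS]
      have h1 : ∀ b ∈ range B, 2 ^ b * avg (fun i => ic cl c i * FI b (K i)) =
          avg fun i => 2 ^ b * (ic cl c i * FI b (K i)) := fun b _ => (avg_mulcl _ _).symm
      rw [Finset.sum_congr rfl h1, ← avg_sums]
      congr 1
      funext i
      rw [Finset.mul_sum]
      exact Finset.sum_congr rfl fun b _ => by ring
    have hS0 : ∑ b ∈ range B, 2 ^ b * avg (fun i => FI b (K i)) =
        avg (fun i => ∑ b ∈ range B, 2 ^ b * FI b (K i)) := by
      have h1 : ∀ b ∈ range B, 2 ^ b * avg (fun i => FI b (K i)) =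
          avg fun i => 2 ^ b * FI b (K i) := fun b _ => (avg_mulcl _ _).symm
      rw [Finset.sum_congr rfl h1, ← avg_sums]
    have hlo : S ≤ avg (fun i => ic cl c i * (K i : ℝ)) := by
      rw [hSa]
      exact avg_mono fun i => mul_le_mul_of_nonneg_left (hpt i) (ic_nonneg cl c i)
    have hup : avg (fun i => ic cl c i * (K i : ℝ)) - S ≤
        avg (fun i => (K i : ℝ)) - ∑ b ∈ range B, 2 ^ b * avg (fun i => FI b (K i)) := by
      rw [hS0, hSa, ← avg_sub, ← avg_sub]
      refine avg_mono fun i => ?_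
      have h1 := hpt i
      have h2 := ic_le cl c i
      nlinarith
    have hsh : T - ε / 8 ≤ ∑ b ∈ range B, 2 ^ b * avg (fun i => FI b (K i)) := by
      have h3 : ∑ b ∈ range B, 2 ^ b * (al b - ε₁) = T - (∑ b ∈ range B, (2 : ℝ) ^ b) * ε₁ := by
        rw [hT, Finset.sum_mul, ← Finset.sum_sub_distrib]
        exact Finset.sum_congr rfl fun b _ => by ring
      have h4 : ∑ b ∈ range B, 2 ^ b * (al b - ε₁) ≤ ∑ b ∈ range B, 2 ^ b * avg (fun i => FI b (K i)) :=
        Finset.sum_le_sum fun b _ => mul_le_mul_of_nonneg_left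
          (by have := (abs_lt.1 (hN.1 b)).1; linarith) (by positivity)
      have h5 := mul_le_mul_of_nonneg_right (sum_two_pow B) hε₁0.le
      linarith
    have hm := abs_lt.1 hN.2
    have hT2 := mean_al_le B
    rw [← hT] at hT2 hB2
    obtain ⟨k1, k2⟩ := abs_le.1 hS1
    rw [abs_le]
    constructor <;> linarith

end

theorem abs' : S_ABS := by
  intro ε ε' hε hε'
  obtain ⟨e, he⟩ : ∃ e, e = min ε 1 := ⟨_, rfl⟩
  obtain ⟨e', he'⟩ : ∃ e', e' = min ε' 1 := ⟨_, rfl⟩
  have he0 : 0 < e := by rw [he]; exact lt_min hε one_pos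
  have he1 : e ≤ 1 := by rw [he]; exact min_le_right _ _
  have hee : e ≤ ε := by rw [he]; exact min_le_left _ _
  have he'0 : 0 < e' := by rw [he']; exact lt_min hε' one_pos
  have he'1 : e' ≤ 1 := by rw [he']; exact min_le_right _ _
  have hee' : e' ≤ ε' := by rw [he']; exact min_le_left _ _
  obtain ⟨B, hB1, hB2⟩ := exists_B2 (show 0 < e / 8 by positivity)
  have hB0 : (0 : ℝ) < 2 ^ B := by positivity
  have hp : (1 : ℝ) ≤ 2 ^ B := one_le_pow₀ (by norm_num)
  obtain ⟨ε₁, hε₁⟩ : ∃ ε₁, ε₁ = e / 8 / 2 ^ B := ⟨_, rfl⟩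
  have hε₁0 : 0 < ε₁ := by rw [hε₁]; positivity
  have hε₁B : 2 ^ B * ε₁ = e / 8 := by rw [hε₁]; field_simp
  have hε₁1 : ε₁ ≤ 1 := by nlinarith
  obtain ⟨η₁, hη₁0, habs⟩ := abs_law hε₁0 hε₁1 (show 0 < e' / 2 by positivity) (by linarith)
  obtain ⟨δ, hδ⟩ : ∃ δ, δ = e / 16 / 2 ^ B := ⟨_, rfl⟩
  have hδ0 : 0 < δ := by rw [hδ]; positivity
  have hδB : 2 ^ B * δ = e / 16 := by rw [hδ]; field_simp
  obtain ⟨η, hη⟩ : ∃ η, η = min (min (η₁ / 16) δ) (δ ^ 2 * e' / (8 * (B + 1))) := ⟨_, rfl⟩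
  have hη0 : 0 < η := by
    rw [hη]
    exact lt_min (lt_min (by positivity) hδ0) (by positivity)
  have hη1 : η ≤ η₁ / 16 := by rw [hη]; exact (min_le_left _ _).trans (min_le_left _ _)
  have hη2 : η ≤ δ := by rw [hη]; exact (min_le_left _ _).trans (min_le_right _ _)
  have hη3 : η ≤ δ ^ 2 * e' / (8 * (B + 1)) := by rw [hη]; exact min_le_right _ _
  have hηB : 2 ^ B * η ≤ e / 16 := by
    rw [← hδB]
    exact mul_le_mul_of_nonneg_left hη2 hB0.le
  refine ⟨η, hη0, ?_⟩
  intro Ω I _ _ _ _ cl K hcl hK hm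
  have hΩ : (0 : ℝ) < Fintype.card Ω := by exact_mod_cast Fintype.card_pos
  -- the law over all classes together
  have hA : ((univ.filter fun ω => ¬ Nl (K ω) ε₁).card : ℝ) ≤ e' / 2 * Fintype.card Ω := by
    refine habs Ω I K (fun b => ?_) (hm.trans (by linarith))
    have h1 : avg (fun ω => (sh K b ω - al b) ^ 2) ≤
        avg fun ω => 4 * ∑ c, (avg (fun i => ic cl c i * (FI b (K ω i) - al b))) ^ 2 :=
      avg_mono fun ω => share_sq cl (K ω) b
    refine h1.trans ?_
    rw [avg_mulcl, avg_sums]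
    have h2 : ∑ c : ZMod 4, avg (fun ω => (avg (fun i => ic cl c i * (FI b (K ω i) - al b))) ^ 2) ≤ ∑ c : ZMod 4, η :=
      Finset.sum_le_sum fun c _ => hK b c
    rw [Finset.sum_const] at h2
    have e4 : (univ : Finset (ZMod 4)).card = 4 := rfl
    rw [e4, nsmul_eq_mul] at h2
    push_cast at h2
    linarith
  have hsub : (univ.filter fun ω => ¬ LawC cl (K ω) ε) ⊆
      (univ.filter fun ω => ¬ Nl (K ω) ε₁) ∪ ((range B ×ˢ (univ : Finset (ZMod 4))).biUnion fun q =>
        univ.filter fun ω => δ ^ 2 ≤ (avg (fun i => ic cl q.2 i * (FI q.1 (K ω i) - al q.1))) ^ 2) := by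
    intro ω hω
    have hω' := (Finset.mem_filter.1 hω).2
    by_contra hcon
    rw [Finset.mem_union, not_or] at hcon
    obtain ⟨hc1, hc2⟩ := hcon
    have hN : Nl (K ω) ε₁ := by
      by_contra h
      exact hc1 (Finset.mem_filter.2 ⟨Finset.mem_univ _, h⟩)
    have hX : ∀ b ∈ range B, ∀ c, |avg (fun i => ic cl c i * (FI b (K ω i) - al b))| ≤ δ := by
      intro b hb c
      by_contra h'
      refine hc2 (Finset.mem_biUnion.2 ⟨(b, c), Finset.mem_product.2 ⟨hb, Finset.mem_univ _⟩,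
        Finset.mem_filter.2 ⟨Finset.mem_univ _, ?_⟩⟩)
      show δ ^ 2 ≤ (avg (fun i => ic cl c i * (FI b (K ω i) - al b))) ^ 2
      rw [← sq_abs (avg (fun i => ic cl c i * (FI b (K ω i) - al b)))]
      exact pow_le_pow_left₀ hδ0.le (not_le.1 h').le 2
    have hlaw := lawC_of cl he0 he1 hB1 hB2 hε₁0 hε₁B.le hδ0 hδB.le hη0 hηB hN hX hcl
    apply hω'
    intro c
    obtain ⟨l1, l2, l3⟩ := hlaw c
    exact ⟨l1.trans hee, fun b => (l2 b).trans hee, l3.trans hee⟩
  have hc : (((range B ×ˢ (univ : Finset (ZMod 4))).biUnion fun q =>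
        univ.filter fun ω => δ ^ 2 ≤ (avg (fun i => ic cl q.2 i * (FI q.1 (K ω i) - al q.1))) ^ 2).card : ℝ) ≤
      e' / 2 * Fintype.card Ω := by
    have h1 : (((range B ×ˢ (univ : Finset (ZMod 4))).biUnion fun q =>
        univ.filter fun ω => δ ^ 2 ≤ (avg (fun i => ic cl q.2 i * (FI q.1 (K ω i) - al q.1))) ^ 2).card : ℝ) ≤
        ∑ q ∈ range B ×ˢ (univ : Finset (ZMod 4)), ((univ.filter fun ω =>
          δ ^ 2 ≤ (avg (fun i => ic cl q.2 i * (FI q.1 (K ω i) - al q.1))) ^ 2).card : ℝ) := by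
      exact_mod_cast Finset.card_biUnion_le
    refine h1.trans ?_
    have h2 : ∀ q ∈ range B ×ˢ (univ : Finset (ZMod 4)), ((univ.filter fun ω =>
          δ ^ 2 ≤ (avg (fun i => ic cl q.2 i * (FI q.1 (K ω i) - al q.1))) ^ 2).card : ℝ) ≤
        e' / (8 * (B + 1)) * Fintype.card Ω := by
      intro q _
      refine (markov (fun ω => sq_nonneg _) (by positivity)).trans ?_
      refine mul_le_mul_of_nonneg_right ?_ hΩ.le
      rw [div_le_iff₀ (by positivity)]
      refine (hK q.1 q.2).trans (hη3.trans (le_of_eq ?_))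
      ring
    refine (Finset.sum_le_card_nsmul _ _ _ h2).trans ?_
    have e4 : (univ : Finset (ZMod 4)).card = 4 := rfl
    rw [nsmul_eq_mul, Finset.card_product, Finset.card_range, e4, ← mul_assoc]
    refine mul_le_mul_of_nonneg_right ?_ hΩ.le
    push_cast
    rw [mul_div_assoc', div_le_div_iff₀ (by positivity) (by norm_num)]
    have : (0 : ℝ) ≤ B := Nat.cast_nonneg _
    nlinarith
  calc ((univ.filter fun ω => ¬ LawC cl (K ω) ε).card : ℝ) ≤
        ((univ.filter fun ω => ¬ Nl (K ω) ε₁).card : ℝ) +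
        (((range B ×ˢ (univ : Finset (ZMod 4))).biUnion fun q =>
        univ.filter fun ω => δ ^ 2 ≤ (avg (fun i => ic cl q.2 i * (FI q.1 (K ω i) - al q.1))) ^ 2).card : ℝ) := by
        exact_mod_cast (Finset.card_le_card hsub).trans (Finset.card_union_le _ _)
    _ ≤ e' / 2 * Fintype.card Ω + e' / 2 * Fintype.card Ω := add_le_add hA hc
    _ = e' * Fintype.card Ω := by ring
    _ ≤ ε' * Fintype.card Ω := mul_le_mul_of_nonneg_right hee' hΩ.le

end Pool.Agent.Q261.GN
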