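import Mathlib

set_option autoImplicit false

/-! # Project GN: a quartic over a finite field -/

namespace Pool.Agent.Q261.GN

open Finset
open scoped Classical

section
variable {k : Type} [Field k] [Fintype k]

lemma quot_sq {g x : k} (hg : ¬ IsSquare g) (hx : ¬ IsSquare x) : ∃ t : k, x = g * t ^ 2 := by
  have hg0 : g ≠ 0 := fun h => hg (h ▸ IsSquare.zero)
  have h1 : IsSquare (g * x) := by
    by_cases h : ringChar k = 2
    · exact FiniteField.isSquare_of_char_two h _
    · have hx0 : x ≠ 0 := fun h => hx (h ▸ IsSquare.zero)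
      rw [← quadraticChar_one_iff_isSquare (mul_ne_zero hg0 hx0), map_mul,
        (quadraticChar_neg_one_iff_not_isSquare).2 hg, (quadraticChar_neg_one_iff_not_isSquare).2 hx]
      norm_num
  obtain ⟨r, hr⟩ := h1
  refine ⟨r / g, ?_⟩
  rw [div_pow, sq r, ← hr]
  field_simp

/-- the curves `g t⁴ + B / g = w²` have points with `t ≠ 0` -/
theorem quartic (h2 : (2 : k) ≠ 0) {i : k} (hi : i ^ 2 = -1) {g B : k} (hg : ¬ IsSquare g) (hB : IsSquare B)
    (hB0 : B ≠ 0) : ∃ t w : k, t ≠ 0 ∧ g * t ^ 4 + B / g = w ^ 2 := by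
  by_contra hcon
  push Not at hcon
  have hg0 : g ≠ 0 := fun h => hg (h ▸ IsSquare.zero)
  have hi0 : i ≠ 0 := by
    rintro rfl
    rw [zero_pow two_ne_zero] at hi
    have : (1 : k) = 0 := by linear_combination hi
    exact one_ne_zero this
  have h1i : (1 + i) ^ 2 = 2 * i := by linear_combination hi
  have h1i0 : 1 + i ≠ 0 := by
    intro h0
    rw [h0, zero_pow two_ne_zero] at h1i
    exact mul_ne_zero h2 hi0 h1i.symm
  -- the `x`-coordinates of the points are squares
  have hsq : ∀ x y : k, x ≠ 0 → y ^ 2 = x ^ 3 + B * x → ∃ t, x = t ^ 2 := by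
    intro x y hx hy
    by_contra h
    have hxs : ¬ IsSquare x := by
      rintro ⟨t, ht⟩
      exact h ⟨t, by rw [ht, sq]⟩
    obtain ⟨t, ht⟩ := quot_sq hg hxs
    have ht0 : t ≠ 0 := by
      rintro rfl
      rw [zero_pow two_ne_zero, mul_zero] at ht
      exact hx ht
    refine hcon t (y / (g * t)) ht0 ?_
    rw [div_pow, hy, ht]
    field_simp
  obtain ⟨N, hN⟩ : ∃ N : Finset (k × k), N = univ.filter fun p => p.1 ≠ 0 ∧ p.2 ^ 2 = p.1 ^ 3 + B * p.1 := ⟨_, rfl⟩
  obtain ⟨A, hA⟩ : ∃ A : Finset (k × k), A = univ.filter fun p => p.1 ≠ 0 ∧ p.1 ^ 4 + B = p.2 ^ 2 := ⟨_, rfl⟩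
  have hNm : ∀ p, p ∈ N ↔ p.1 ≠ 0 ∧ p.2 ^ 2 = p.1 ^ 3 + B * p.1 := fun p => by
    rw [hN, Finset.mem_filter]; exact and_iff_right (Finset.mem_univ _)
  have hAm : ∀ p, p ∈ A ↔ p.1 ≠ 0 ∧ p.1 ^ 4 + B = p.2 ^ 2 := fun p => by
    rw [hA, Finset.mem_filter]; exact and_iff_right (Finset.mem_univ _)
  -- the roots
  have hroot : ∀ p : k × k, ∃ t : k, p ∈ N → p.1 = t ^ 2 := by
    intro p
    by_cases h : p ∈ N
    · obtain ⟨h1, h3⟩ := (hNm p).1 h
      obtain ⟨t, ht⟩ := hsq p.1 p.2 h1 h3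
      exact ⟨t, fun _ => ht⟩
    · exact ⟨0, fun h' => absurd h' h⟩
  choose r hr using hroot
  have hr0 : ∀ p ∈ N, r p ≠ 0 := by
    intro p hp h
    have h1 := hr p hp
    rw [h, zero_pow two_ne_zero] at h1
    exact ((hNm p).1 hp).1 h1
  have hcard1 : 2 * N.card ≤ A.card := by
    have e : (N ×ˢ (univ : Finset Bool)).card = 2 * N.card := by
      rw [Finset.card_product, Finset.card_univ, Fintype.card_bool, mul_comm]
    rw [← e]
    refine Finset.card_le_card_of_injOn (fun q => if q.2 then (r q.1, q.1.2 / r q.1) else (-r q.1, -(q.1.2 / r q.1)))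
      ?_ ?_
    · rintro ⟨p, b⟩ hq
      rw [Finset.coe_product] at hq
      have hp : p ∈ N := hq.1
      have h0 := hr0 p hp
      have h1 := hr p hp
      obtain ⟨-, h3⟩ := (hNm p).1 hp
      have key : r p ^ 4 + B = (p.2 / r p) ^ 2 := by
        rw [div_pow, h3, h1]
        field_simp
      rw [Finset.mem_coe, hAm]
      cases b
      · show -r p ≠ 0 ∧ (-r p) ^ 4 + B = (-(p.2 / r p)) ^ 2
        refine ⟨neg_ne_zero.2 h0, ?_⟩
        rw [neg_sq, ← key]
        ring
      · exact ⟨h0, key⟩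
    · rintro ⟨p, b⟩ hq ⟨p', b'⟩ hq' h
      rw [Finset.coe_product] at hq hq'
      have hp : p ∈ N := hq.1
      have hp' : p' ∈ N := hq'.1
      have h0 := hr0 p hp
      have h0' := hr0 p' hp'
      have h1 := hr p hp
      have h1' := hr p' hp'
      have hcommon : ∀ s : k, s ^ 2 = 1 → r p = s * r p' → p.2 / r p = s * (p'.2 / r p') → p = p' := by
        intro s hs hrr hyy
        have e1 : p.1 = p'.1 := by rw [h1, h1', hrr, mul_pow, hs, one_mul]
        have e2 : p.2 = p'.2 := by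
          have h5 : p.2 = (p.2 / r p) * r p := by field_simp
          rw [h5, hyy, hrr]
          have : s * (p'.2 / r p') * (s * r p') = s ^ 2 * ((p'.2 / r p') * r p') := by ring
          rw [this, hs, one_mul]
          field_simp
        exact Prod.ext e1 e2
      cases b <;> cases b'
      · have e1 : -r p = -r p' := congrArg Prod.fst h
        have e2 : -(p.2 / r p) = -(p'.2 / r p') := congrArg Prod.snd h
        rw [hcommon 1 (one_pow 2) (by rw [one_mul]; exact neg_injective e1) (by rw [one_mul]; exact neg_injective e2)]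
      · exfalso
        have e1 : -r p = r p' := congrArg Prod.fst h
        have e2 : -(p.2 / r p) = p'.2 / r p' := congrArg Prod.snd h
        have h6 := hcommon (-1) (by norm_num) (by rw [← e1]; ring) (by rw [← e2]; ring)
        rw [h6] at e1
        have : 2 * r p' = 0 := by linear_combination -e1
        exact mul_ne_zero h2 h0' this
      · exfalso
        have e1 : r p = -r p' := congrArg Prod.fst h
        have e2 : p.2 / r p = -(p'.2 / r p') := congrArg Prod.snd h
        have h6 := hcommon (-1) (by norm_num) (by rw [e1]; ring) (by rw [e2]; ring)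
        rw [h6] at e1
        have : 2 * r p' = 0 := by linear_combination e1
        exact mul_ne_zero h2 h0' this
      · have e1 : r p = r p' := congrArg Prod.fst h
        have e2 : p.2 / r p = p'.2 / r p' := congrArg Prod.snd h
        rw [hcommon 1 (one_pow 2) (by rw [one_mul]; exact e1) (by rw [one_mul]; exact e2)]
  have hcard2 : A.card ≤ N.card := by
    refine Finset.card_le_card_of_injOn (fun p => (-i * (p.2 - p.1 ^ 2), (1 + i) * p.1 * (-i * (p.2 - p.1 ^ 2)))) ?_ ?_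
    · intro p hp
      obtain ⟨h1, h3⟩ := (hAm p).1 hp
      rw [Finset.mem_coe, hNm]
      have hne : p.2 - p.1 ^ 2 ≠ 0 := by
        intro h
        have h4 : p.2 = p.1 ^ 2 := sub_eq_zero.1 h
        rw [h4] at h3
        exact hB0 (by linear_combination h3)
      refine ⟨mul_ne_zero (neg_ne_zero.2 hi0) hne, ?_⟩
      show ((1 + i) * p.1 * (-i * (p.2 - p.1 ^ 2))) ^ 2 = (-i * (p.2 - p.1 ^ 2)) ^ 3 + B * (-i * (p.2 - p.1 ^ 2))
      have hBe : B = (p.2 - p.1 ^ 2) * (p.2 + p.1 ^ 2) := by linear_combination h3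
      rw [mul_pow, mul_pow, h1i, hBe]
      linear_combination (-i * (p.2 - p.1 ^ 2) ^ 3 - 2 * i * p.1 ^ 2 * (p.2 - p.1 ^ 2) ^ 2 + 2 * i * p.1 ^ 2 * (p.2 - p.1 ^ 2) ^ 2 + 2 * i * (p.1 ^ 2 * (p.2 - p.1 ^ 2) ^ 2) - 0) * 0 +
        (i * (p.2 - p.1 ^ 2) ^ 3 + 2 * i * p.1 ^ 2 * (p.2 - p.1 ^ 2) ^ 2) * hi
    · intro p hp p' hp' h
      have e1 : -i * (p.2 - p.1 ^ 2) = -i * (p'.2 - p'.1 ^ 2) := congrArg Prod.fst h
      have e2 : (1 + i) * p.1 * (-i * (p.2 - p.1 ^ 2)) = (1 + i) * p'.1 * (-i * (p'.2 - p'.1 ^ 2)) := congrArg Prod.snd h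
      obtain ⟨h1, h3⟩ := (hAm p').1 hp'
      have hne : p'.2 - p'.1 ^ 2 ≠ 0 := by
        intro h
        have h4 : p'.2 = p'.1 ^ 2 := sub_eq_zero.1 h
        rw [h4] at h3
        exact hB0 (by linear_combination h3)
      have hne2 : -i * (p'.2 - p'.1 ^ 2) ≠ 0 := mul_ne_zero (neg_ne_zero.2 hi0) hne
      rw [e1] at e2
      have e3 := mul_left_cancel₀ h1i0 (mul_right_cancel₀ hne2 e2)
      have e4 := mul_left_cancel₀ (neg_ne_zero.2 hi0) e1
      rw [e3] at e4
      exact Prod.ext e3 (sub_left_injective e4)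
  have hN0 : 0 < N.card := by
    obtain ⟨β, hβ⟩ := hB
    refine Finset.card_pos.2 ⟨(i * β, 0), (hNm _).2 ⟨?_, ?_⟩⟩
    · refine mul_ne_zero hi0 ?_
      rintro rfl
      exact hB0 (by rw [hβ, mul_zero])
    · show (0 : k) ^ 2 = (i * β) ^ 3 + B * (i * β)
      rw [hβ]
      linear_combination (-(i * β ^ 3)) * hi
  omega

end

end Pool.Agent.Q261.GN
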