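import Mathlib
import Pool.Agent.Y682.Lcl
import Pool.Agent.Q261.GN.Ff

set_option autoImplicit false

/-! # Project GN: local solubility, the part without the definitions of the project -/

namespace Pool.Agent.Q261.GN

open NumberField IsDedekindDomain
open Pool.Agent.Y682 (vv vv_coe exists_sqrt exists_sqrt')
open scoped Classical

/-- the same as `Q155.GN.LC` for `a = 0` -/
def LC0 (L : Type) [Field L] (b d : L) : Prop :=
  ∃ X Y r : L, X ≠ 0 ∧ Y ^ 2 = X ^ 3 - 4 * b * X ∧ X = d * r ^ 2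

lemma LC0_of {L : Type} [Field L] {i b d e t w : L} (hi : i ^ 2 = -1) (h2 : (2 : L) ≠ 0) (hd : d ≠ 0) (ht : t ≠ 0)
    (hb : b = d * e) (h : d * t ^ 4 + e = w ^ 2) : LC0 L b d := by
  have hi0 : i ≠ 0 := by
    rintro rfl
    rw [zero_pow two_ne_zero] at hi
    have : (1 : L) = 0 := by linear_combination hi
    exact one_ne_zero this
  have h1i : (1 + i) ^ 2 = 2 * i := by linear_combination hi
  have h8 : (2 - 2 * i) ^ 2 = -8 * i := by linear_combination 4 * hi
  refine ⟨2 * i * (d * t ^ 2), (2 - 2 * i) * (d * t * w), (1 + i) * t, ?_, ?_, ?_⟩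
  · exact mul_ne_zero (mul_ne_zero h2 hi0) (mul_ne_zero hd (pow_ne_zero 2 ht))
  · rw [mul_pow, h8, mul_pow, ← h, hb]
    linear_combination (-8 * i * d ^ 3 * t ^ 6) * hi
  · rw [mul_pow, h1i]
    ring

section
variable {K : Type} [Field K] [NumberField K] (v : HeightOneSpectrum (𝓞 K))

lemma exists_unif : ∃ p : K, p ≠ 0 ∧ v.valuation K p < 1 := by
  obtain ⟨p, hp⟩ := v.valuation_exists_uniformizer K
  refine ⟨p, ?_, ?_⟩
  · rintro rfl
    rw [map_zero] at hp
    exact absurd hp.symm WithZero.exp_ne_zero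
  · rw [hp, ← WithZero.exp_zero]
    exact WithZero.exp_lt_exp.2 (by norm_num)

/-- approximation of an integral element of `K` by an integer -/
lemma exists_int {x : K} (hx : v.valuation K x ≤ 1) : ∃ a : 𝓞 K, v.valuation K (algebraMap (𝓞 K) K a - x) < 1 := by
  obtain ⟨a, ha⟩ := HeightOneSpectrum.exists_valuation_sub_lt_of_integer v hx 1
  exact ⟨a, by simpa using ha⟩

variable {v}

lemma four_vv (h2 : v.valuation K 2 = 1) : vv v (4 : v.adicCompletion K) = 1 := by
  have e : (4 : v.adicCompletion K) = algebraMap K _ (2 * 2) := by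
    rw [map_mul, map_ofNat]; norm_num
  rw [e, vv_coe, map_mul, h2, one_mul]

/-- `c t⁴ + e` is a square if `c` is a square and `e / (c t⁴)` is small, or the other way around -/
lemma sq_add {x y z : v.adicCompletion K} (hx : x = z ^ 2) (hx0 : x ≠ 0) (h : vv v y < vv v 4 * vv v x) :
    ∃ w : v.adicCompletion K, x + y = w ^ 2 := by
  have hz : z ≠ 0 := by
    rintro rfl
    rw [zero_pow two_ne_zero] at hx
    exact hx0 hx
  obtain ⟨w, hw⟩ := exists_sqrt' v (x := x + y) (y := z) hz (by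
    rw [hx]
    have e : z ^ 2 + y - z ^ 2 = y := by ring
    rw [e, ← map_pow, ← hx]
    exact h)
  exact ⟨w, hw.symm⟩

/-- the fourth power -/
lemma fourth (h2 : v.valuation K 2 = 1) {x : v.adicCompletion K} (hx : vv v x < 1) :
    ∃ z : v.adicCompletion K, z ^ 4 = 1 + x := by
  have h4 := four_vv h2
  have hv2 : vv v (2 : v.adicCompletion K) = 1 := by
    have e : (2 : v.adicCompletion K) = algebraMap K _ 2 := by rw [map_ofNat]
    rw [e, vv_coe, h2]
  obtain ⟨y, hy⟩ := exists_sqrt v x (by rwa [h4])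
  -- one of `y - 1`, `-y - 1` is small
  have key : ∃ y' : v.adicCompletion K, y' ^ 2 = 1 + x ∧ vv v (y' - 1) < 1 := by
    have h5 : (y - 1) * (y + 1) = x := by linear_combination hy
    by_cases h6 : vv v (y - 1) < 1
    · exact ⟨y, hy, h6⟩
    · refine ⟨-y, by rw [neg_sq, hy], ?_⟩
      have h7 := congrArg (vv v) h5
      rw [map_mul] at h7
      have h8 : vv v (y + 1) < 1 := by
        by_contra h9
        have h10 : 1 * 1 ≤ vv v (y - 1) * vv v (y + 1) := mul_le_mul' (not_lt.1 h6) (not_lt.1 h9)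
        rw [one_mul] at h10
        rw [h7] at h10
        exact absurd hx (not_lt.2 h10)
      have e : -y - 1 = -(y + 1) := by ring
      rw [e, Valuation.map_neg]
      exact h8
  obtain ⟨y', hy', hy1⟩ := key
  obtain ⟨z, hz⟩ := exists_sqrt v (y' - 1) (by rwa [h4])
  refine ⟨z, ?_⟩
  have e : z ^ 4 = (z ^ 2) ^ 2 := by ring
  rw [e, hz, add_sub_cancel, hy']

/-- the residue field -/
lemma res_eq {a b : 𝓞 K} : Ideal.Quotient.mk v.asIdeal a = Ideal.Quotient.mk v.asIdeal b ↔
    v.valuation K (algebraMap (𝓞 K) K a - algebraMap (𝓞 K) K b) < 1 := by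
  rw [Ideal.Quotient.eq, ← map_sub, HeightOneSpectrum.valuation_lt_one_iff_mem]

lemma unit_of_near {x y : K} (hx : v.valuation K x = 1) (h : v.valuation K (y - x) < 1) : v.valuation K y = 1 := by
  have e : y = x + (y - x) := by ring
  rw [e, Valuation.map_add_eq_of_lt_left _ (by rwa [hx]), hx]

/-- **Solubility of `c t⁴ + e = w²` at the odd places.** -/
theorem quartic_loc {i : K} (hi : i ^ 2 = -1) (h2 : v.valuation K 2 = 1) {c e : K} (hc : v.valuation K c = 1)
    (he : v.valuation K e = 1) : ∃ t w : v.adicCompletion K, t ≠ 0 ∧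
      algebraMap K (v.adicCompletion K) c * t ^ 4 + algebraMap K (v.adicCompletion K) e = w ^ 2 := by
  have h4 := four_vv h2
  obtain ⟨p, hp0, hp⟩ := exists_unif v
  have hc0 : c ≠ 0 := by
    rintro rfl
    rw [map_zero] at hc
    exact zero_ne_one hc
  have he0 : e ≠ 0 := by
    rintro rfl
    rw [map_zero] at he
    exact zero_ne_one he
  have hinj : Function.Injective (algebraMap K (v.adicCompletion K)) := (algebraMap K (v.adicCompletion K)).injective
  have hne : ∀ {x : K}, x ≠ 0 → algebraMap K (v.adicCompletion K) x ≠ 0 := fun h => (map_ne_zero_iff _ hinj).2 h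
  have hp4 : v.valuation K (p ^ 4) < 1 := by
    rw [map_pow]
    exact pow_lt_one₀ zero_le hp four_ne_zero
  obtain ⟨c₀, hc₀⟩ := exists_int v hc.le
  obtain ⟨e₀, he₀⟩ := exists_int v he.le
  have hc₀1 := unit_of_near hc hc₀
  have he₀1 := unit_of_near he he₀
  -- squares in the residue field give squares in the completion
  have hsq : ∀ {x : K} {x₀ : 𝓞 K}, v.valuation K x = 1 → v.valuation K (algebraMap (𝓞 K) K x₀ - x) < 1 →
      IsSquare (Ideal.Quotient.mk v.asIdeal x₀) → ∃ z : v.adicCompletion K, algebraMap K (v.adicCompletion K) x = z ^ 2 := by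
    rintro x x₀ hx hx₀ ⟨s, hs⟩
    obtain ⟨s₀, rfl⟩ := Ideal.Quotient.mk_surjective s
    rw [← map_mul, res_eq] at hs
    have h5 : v.valuation K (x - (algebraMap (𝓞 K) K s₀) ^ 2) < 1 := by
      have e1 : x - (algebraMap (𝓞 K) K s₀) ^ 2 = (algebraMap (𝓞 K) K x₀ - algebraMap (𝓞 K) K (s₀ * s₀)) -
          (algebraMap (𝓞 K) K x₀ - x) := by rw [map_mul]; ring
      rw [e1]
      exact (Valuation.map_sub _ _ _).trans_lt (max_lt hs hx₀)
    have h6 : v.valuation K ((algebraMap (𝓞 K) K s₀) ^ 2) = 1 :=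
      unit_of_near hx (by rwa [Valuation.map_sub_swap])
    have hs0 : algebraMap (𝓞 K) K s₀ ≠ 0 := by
      intro h
      rw [h, zero_pow two_ne_zero, map_zero] at h6
      exact zero_ne_one h6
    have h7 : (v.valuation K (algebraMap (𝓞 K) K s₀)) ^ 2 = 1 := by rw [← map_pow]; exact h6
    have e9 : algebraMap K (v.adicCompletion K) x - (algebraMap K (v.adicCompletion K) (algebraMap (𝓞 K) K s₀)) ^ 2 =
        algebraMap K (v.adicCompletion K) (x - (algebraMap (𝓞 K) K s₀) ^ 2) := by rw [map_sub, map_pow]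
    obtain ⟨z, hz⟩ := exists_sqrt' v (x := algebraMap K (v.adicCompletion K) x)
      (y := algebraMap K (v.adicCompletion K) (algebraMap (𝓞 K) K s₀)) (hne hs0) (by
        rw [h4, one_mul, e9, vv_coe, vv_coe, h7]
        exact h5)
    exact ⟨z, hz.symm⟩
  by_cases hcs : IsSquare (Ideal.Quotient.mk v.asIdeal c₀)
  · -- `t` large
    obtain ⟨z, hz⟩ := hsq hc hc₀ hcs
    obtain ⟨w, hw⟩ := sq_add (v := v) (x := algebraMap K (v.adicCompletion K) (c * (p⁻¹) ^ 4))
      (y := algebraMap K (v.adicCompletion K) e) (z := z * algebraMap K (v.adicCompletion K) (p⁻¹ ^ 2)) (by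
        rw [map_mul, hz, mul_pow, ← map_pow]
        congr 2
        ring) (hne (mul_ne_zero hc0 (pow_ne_zero 4 (inv_ne_zero hp0)))) (by
        rw [h4, one_mul, vv_coe, vv_coe, he, map_mul, hc, one_mul, inv_pow, map_inv₀]
        exact (one_lt_inv₀ (zero_lt_iff.2 ((Valuation.ne_zero_iff _).2 (pow_ne_zero 4 hp0)))).2 hp4)
    refine ⟨algebraMap K (v.adicCompletion K) p⁻¹, w, hne (inv_ne_zero hp0), ?_⟩
    rw [← hw, map_mul, map_pow]
  by_cases hes : IsSquare (Ideal.Quotient.mk v.asIdeal e₀)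
  · -- `t` small
    obtain ⟨z, hz⟩ := hsq he he₀ hes
    obtain ⟨w, hw⟩ := sq_add (v := v) (x := algebraMap K (v.adicCompletion K) e)
      (y := algebraMap K (v.adicCompletion K) (c * p ^ 4)) (z := z) hz (hne he0) (by
        rw [h4, one_mul, vv_coe, vv_coe, he, map_mul, hc, one_mul]
        exact hp4)
    refine ⟨algebraMap K (v.adicCompletion K) p, w, hne hp0, ?_⟩
    rw [← hw, map_mul, map_pow, add_comm]
  -- both are not squares
  haveI : v.asIdeal.IsMaximal := v.isMaximal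
  letI : Field (𝓞 K ⧸ v.asIdeal) := Ideal.Quotient.field v.asIdeal
  haveI : Finite (𝓞 K ⧸ v.asIdeal) := Ideal.finiteQuotientOfFreeOfNeBot v.asIdeal v.ne_bot
  haveI : Fintype (𝓞 K ⧸ v.asIdeal) := Fintype.ofFinite _
  have hi1 : v.valuation K i ≤ 1 := by
    have h5 : v.valuation K i ^ 2 = 1 := by rw [← map_pow, hi, Valuation.map_neg, map_one]
    by_contra h
    have := one_lt_pow₀ (not_le.1 h) two_ne_zero
    rw [h5] at this
    exact lt_irrefl _ this
  obtain ⟨i₀, hi₀⟩ := exists_int v hi1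
  have hi2 : (Ideal.Quotient.mk v.asIdeal i₀) ^ 2 = -1 := by
    rw [← map_pow, ← map_one (Ideal.Quotient.mk v.asIdeal), ← map_neg, res_eq]
    have e1 : algebraMap (𝓞 K) K (i₀ ^ 2) - algebraMap (𝓞 K) K (-1) =
        (algebraMap (𝓞 K) K i₀ - i) * (algebraMap (𝓞 K) K i₀ + i) := by
      rw [map_pow, map_neg, map_one]
      linear_combination hi
    rw [e1, map_mul]
    have h5 : v.valuation K (algebraMap (𝓞 K) K i₀ + i) ≤ 1 :=
      (Valuation.map_add _ _ _).trans (max_le (HeightOneSpectrum.valuation_le_one _ _) hi1)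
    exact mul_lt_one_of_lt_of_le hi₀ h5
  have h2k : (2 : 𝓞 K ⧸ v.asIdeal) ≠ 0 := by
    intro h
    have h5 : Ideal.Quotient.mk v.asIdeal (2 : 𝓞 K) = Ideal.Quotient.mk v.asIdeal 0 := by
      rw [map_zero, map_ofNat]; exact h
    rw [res_eq, map_zero, sub_zero, map_ofNat, h2] at h5
    exact lt_irrefl _ h5
  have hc₀0 : Ideal.Quotient.mk v.asIdeal c₀ ≠ 0 := by
    intro h
    exact hcs (h ▸ IsSquare.zero)
  have he₀0 : Ideal.Quotient.mk v.asIdeal e₀ ≠ 0 := by
    intro h
    exact hes (h ▸ IsSquare.zero)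
  have hB : IsSquare (Ideal.Quotient.mk v.asIdeal c₀ * Ideal.Quotient.mk v.asIdeal e₀) := by
    obtain ⟨t, ht⟩ := quot_sq hcs hes
    rw [ht]
    exact ⟨Ideal.Quotient.mk v.asIdeal c₀ * t, by ring⟩
  obtain ⟨τ, ω, hτ0, hτω⟩ := quartic h2k hi2 hcs hB (mul_ne_zero hc₀0 he₀0)
  rw [mul_div_cancel_left₀ _ hc₀0] at hτω
  obtain ⟨t₀, rfl⟩ := Ideal.Quotient.mk_surjective τ
  obtain ⟨w₀, rfl⟩ := Ideal.Quotient.mk_surjective ω
  have ht₀1 : v.valuation K (algebraMap (𝓞 K) K t₀) = 1 := by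
    refine le_antisymm (HeightOneSpectrum.valuation_le_one _ _) (not_lt.1 fun h => hτ0 ?_)
    rw [HeightOneSpectrum.valuation_lt_one_iff_mem] at h
    exact Ideal.Quotient.eq_zero_iff_mem.2 h
  have ht₀0 : algebraMap (𝓞 K) K t₀ ≠ 0 := by
    intro h
    rw [h, map_zero] at ht₀1
    exact zero_ne_one ht₀1
  have hmain : v.valuation K (c * (algebraMap (𝓞 K) K t₀) ^ 4 + e - (algebraMap (𝓞 K) K w₀) ^ 2) < 1 := by
    rw [← map_pow, ← map_mul, ← map_add, ← map_pow, res_eq] at hτω
    have e1 : c * (algebraMap (𝓞 K) K t₀) ^ 4 + e - (algebraMap (𝓞 K) K w₀) ^ 2 =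
        (algebraMap (𝓞 K) K (c₀ * t₀ ^ 4 + e₀) - algebraMap (𝓞 K) K (w₀ ^ 2)) -
          ((algebraMap (𝓞 K) K c₀ - c) * (algebraMap (𝓞 K) K t₀) ^ 4 + (algebraMap (𝓞 K) K e₀ - e)) := by
      rw [map_add, map_mul, map_pow, map_pow]
      ring
    rw [e1]
    refine (Valuation.map_sub _ _ _).trans_lt (max_lt hτω ((Valuation.map_add _ _ _).trans_lt (max_lt ?_ he₀)))
    rw [map_mul, map_pow, ht₀1, one_pow, mul_one]
    exact hc₀
  by_cases hw : v.valuation K (algebraMap (𝓞 K) K w₀) < 1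
  · -- `w = 0`
    have h5 : v.valuation K (c * (algebraMap (𝓞 K) K t₀) ^ 4 + e) < 1 := by
      have e1 : c * (algebraMap (𝓞 K) K t₀) ^ 4 + e =
          (c * (algebraMap (𝓞 K) K t₀) ^ 4 + e - (algebraMap (𝓞 K) K w₀) ^ 2) + (algebraMap (𝓞 K) K w₀) ^ 2 := by ring
      rw [e1]
      refine (Valuation.map_add _ _ _).trans_lt (max_lt hmain ?_)
      rw [map_pow]
      exact pow_lt_one₀ zero_le hw two_ne_zero
    obtain ⟨z, hz⟩ := fourth h2 (x := algebraMap K (v.adicCompletion K)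
      (-(c * (algebraMap (𝓞 K) K t₀) ^ 4 + e) / (c * (algebraMap (𝓞 K) K t₀) ^ 4))) (by
        rw [vv_coe, map_div₀, Valuation.map_neg, map_mul, hc, map_pow, ht₀1, one_pow, one_mul, div_one]
        exact h5)
    have hct : c * (algebraMap (𝓞 K) K t₀) ^ 4 ≠ 0 := mul_ne_zero hc0 (pow_ne_zero 4 ht₀0)
    have e2 : (1 : v.adicCompletion K) + algebraMap K (v.adicCompletion K)
        (-(c * (algebraMap (𝓞 K) K t₀) ^ 4 + e) / (c * (algebraMap (𝓞 K) K t₀) ^ 4)) =
        algebraMap K (v.adicCompletion K) (-e / (c * (algebraMap (𝓞 K) K t₀) ^ 4)) := by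
      rw [← map_one (algebraMap K (v.adicCompletion K)), ← map_add]
      congr 1
      field_simp
      ring
    rw [e2] at hz
    have hz0 : z ≠ 0 := by
      rintro rfl
      rw [zero_pow four_ne_zero] at hz
      exact hne (div_ne_zero (neg_ne_zero.2 he0) hct) hz.symm
    refine ⟨algebraMap K (v.adicCompletion K) (algebraMap (𝓞 K) K t₀) * z, 0, mul_ne_zero (hne ht₀0) hz0, ?_⟩
    rw [zero_pow two_ne_zero, mul_pow, hz, ← map_pow, ← mul_assoc, ← map_mul, ← map_mul, ← map_add,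
      ← map_zero (algebraMap K (v.adicCompletion K))]
    congr 1
    field_simp
    ring
  · have hw1 : v.valuation K (algebraMap (𝓞 K) K w₀) = 1 :=
      le_antisymm (HeightOneSpectrum.valuation_le_one _ _) (not_lt.1 hw)
    have hw0 : algebraMap (𝓞 K) K w₀ ≠ 0 := by
      intro h
      rw [h, map_zero] at hw1
      exact zero_ne_one hw1
    have e9 : algebraMap K (v.adicCompletion K) (c * (algebraMap (𝓞 K) K t₀) ^ 4 + e) -
        (algebraMap K (v.adicCompletion K) (algebraMap (𝓞 K) K w₀)) ^ 2 =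
        algebraMap K (v.adicCompletion K) (c * (algebraMap (𝓞 K) K t₀) ^ 4 + e - (algebraMap (𝓞 K) K w₀) ^ 2) := by
      rw [map_sub _ (c * (algebraMap (𝓞 K) K t₀) ^ 4 + e), map_pow _ (algebraMap (𝓞 K) K w₀)]
    obtain ⟨w, hw⟩ := exists_sqrt' v (x := algebraMap K (v.adicCompletion K) (c * (algebraMap (𝓞 K) K t₀) ^ 4 + e))
      (y := algebraMap K (v.adicCompletion K) (algebraMap (𝓞 K) K w₀)) (hne hw0) (by
        rw [h4, one_mul, e9, vv_coe, vv_coe, hw1, one_pow]
        exact hmain)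
    refine ⟨algebraMap K (v.adicCompletion K) (algebraMap (𝓞 K) K t₀), w, hne ht₀0, ?_⟩
    rw [hw, map_add, map_mul, map_pow]

/-- **The places of good reduction.** -/
theorem lgd0 {i : K} (hi : i ^ 2 = -1) (h2 : v.valuation K 2 = 1) {D d d' : K} (hD : D = d * d')
    (hd : v.valuation K d = 1) (hd' : v.valuation K d' = 1) :
    LC0 (v.adicCompletion K) (algebraMap K (v.adicCompletion K) D) (algebraMap K (v.adicCompletion K) d) ∧
    LC0 (v.adicCompletion K) (algebraMap K (v.adicCompletion K) (-D ^ 2)) (algebraMap K (v.adicCompletion K) d) := by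
  have hinj : Function.Injective (algebraMap K (v.adicCompletion K)) := (algebraMap K (v.adicCompletion K)).injective
  have hd0 : d ≠ 0 := by
    rintro rfl
    rw [map_zero] at hd
    exact zero_ne_one hd
  have hi' : (algebraMap K (v.adicCompletion K) i) ^ 2 = -1 := by rw [← map_pow, hi, map_neg, map_one]
  have h2' : (2 : v.adicCompletion K) ≠ 0 := by
    have e : (2 : v.adicCompletion K) = algebraMap K _ 2 := by rw [map_ofNat]
    rw [e]
    exact (map_ne_zero_iff _ hinj).2 two_ne_zero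
  have hd1 := (map_ne_zero_iff _ hinj).2 hd0
  obtain ⟨t, w, ht, h⟩ := quartic_loc hi h2 hd hd'
  obtain ⟨t', w', ht', h'⟩ := quartic_loc hi h2 hd (e := -(d * d' ^ 2)) (by
    rw [Valuation.map_neg, map_mul, map_pow, hd, hd', one_pow, one_mul])
  refine ⟨LC0_of hi' h2' hd1 ht ?_ h, LC0_of hi' h2' hd1 ht' ?_ h'⟩
  · rw [hD, map_mul]
  · rw [hD, ← map_mul]
    congr 1
    ring

end

end Pool.Agent.Q261.GN
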