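import Pool.Agent.Q155.GN.Stm3
import Pool.Agent.Q261.GN.LocA

set_option autoImplicit false

/-! # Project GN: `S_LGD` -/

namespace Pool.Agent.Q261.GN

open NumberField IsDedekindDomain
open Q155.GN (LC S_LGD)

lemma LC_iff {L : Type} [Field L] {b d : L} : LC0 L b d ↔ LC L 0 b d := by
  unfold LC0 LC
  constructor
  · rintro ⟨X, Y, r, h1, h2, h3⟩
    exact ⟨X, Y, r, h1, by rw [h2]; ring, h3⟩
  · rintro ⟨X, Y, r, h1, h2, h3⟩
    exact ⟨X, Y, r, h1, by rw [h2]; ring, h3⟩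

theorem lgd : S_LGD := by
  intro K _ _ i hi v h2 D d d' hD hd hd'
  obtain ⟨h3, h4⟩ := lgd0 (v := v) hi h2 hD hd hd'
  exact ⟨LC_iff.1 h3, LC_iff.1 h4⟩

end Pool.Agent.Q261.GN
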