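import Mathlib
import Pool.Agent.Q261.GN.LocA

set_option autoImplicit false

/-! # Project GN: local solubility at `1 + i`, the part without the definitions of the project -/

namespace Pool.Agent.Q261.GN

open NumberField IsDedekindDomain
open Pool.Agent.Y682 (vv vv_coe exists_sqrt exists_sqrt')
open scoped Classical

/-- Gaussian integers modulo `1 + i` -/
lemma gauss_par (m : GaussianInt) : (⟨1, 1⟩ : GaussianInt) ∣ m ∨ (⟨1, 1⟩ : GaussianInt) ∣ m - 1 := by
  obtain ⟨a, b⟩ := m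
  rcases Int.even_or_odd (a + b) with ⟨k, hk⟩ | ⟨k, hk⟩
  · left
    refine ⟨⟨k, b - k⟩, ?_⟩
    rw [Zsqrtd.ext_iff]
    simp only [Zsqrtd.re_mul, Zsqrtd.im_mul]
    constructor <;> linarith
  · right
    refine ⟨⟨k, b - k⟩, ?_⟩
    rw [Zsqrtd.ext_iff]
    simp only [Zsqrtd.re_mul, Zsqrtd.im_mul, Zsqrtd.re_sub, Zsqrtd.im_sub, Zsqrtd.re_one, Zsqrtd.im_one]
    constructor <;> linarith

section
variable {K : Type} [Field K] [NumberField K] {v : HeightOneSpectrum (𝓞 K)} {φ : GaussianInt →+* K}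

/-- **The place `1 + i`.** -/
theorem ltw0 (hφ : ∀ a, v.valuation K (φ a) ≤ 1) (h2 : v.valuation K 2 < 1) {d d' : GaussianInt}
    (hd : (4 : GaussianInt) ∣ d - 1) (hd' : (⟨1, 1⟩ : GaussianInt) ∣ d' - 1) :
    LC0 (v.adicCompletion K) (algebraMap K (v.adicCompletion K) (φ (d * d'))) (algebraMap K (v.adicCompletion K) (φ d)) ∧
    LC0 (v.adicCompletion K) (algebraMap K (v.adicCompletion K) (-(φ (d * d')) ^ 2))
      (algebraMap K (v.adicCompletion K) (φ d)) := by
  have hinj : Function.Injective (algebraMap K (v.adicCompletion K)) := (algebraMap K (v.adicCompletion K)).injective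
  have hne : ∀ {x : K}, x ≠ 0 → algebraMap K (v.adicCompletion K) x ≠ 0 := fun h => (map_ne_zero_iff _ hinj).2 h
  obtain ⟨i, hidef⟩ : ∃ i, i = φ ⟨0, 1⟩ := ⟨_, rfl⟩
  have hi : i ^ 2 = -1 := by
    rw [hidef, ← map_pow, ← map_one φ, ← map_neg]
    congr 1
  obtain ⟨j, hjdef⟩ : ∃ j, j = φ ⟨1, 1⟩ := ⟨_, rfl⟩
  have hji : j = 1 + i := by
    rw [hjdef, hidef, ← map_one φ, ← map_add]
    congr 1
  have hj2 : j ^ 2 = 2 * i := by rw [hji]; linear_combination hi
  have hvi : v.valuation K i ≤ 1 := by rw [hidef]; exact hφ _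
  have hvj : v.valuation K j < 1 := by
    by_contra h
    have h5 : 1 ≤ v.valuation K j ^ 2 := one_le_pow₀ (not_lt.1 h)
    rw [← map_pow, hj2, map_mul] at h5
    exact absurd (mul_lt_one_of_lt_of_le h2 hvi) (not_lt.2 h5)
  have h20 : (2 : K) ≠ 0 := two_ne_zero
  have hv20 : v.valuation K 2 ≠ 0 := (Valuation.ne_zero_iff _).2 h20
  have hv4 : v.valuation K 4 = v.valuation K 2 ^ 2 := by rw [← map_pow]; norm_num
  have h4v : vv v (4 : v.adicCompletion K) = v.valuation K 4 := by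
    have e : (4 : v.adicCompletion K) = algebraMap K _ 4 := by rw [map_ofNat]
    rw [e, vv_coe]
  have hv41 : v.valuation K 4 < 1 := by rw [hv4]; exact pow_lt_one₀ zero_le h2 two_ne_zero
  have h40 : (4 : K) ≠ 0 := by norm_num
  have hv40 : v.valuation K 4 ≠ 0 := (Valuation.ne_zero_iff _).2 h40
  have hi' : (algebraMap K (v.adicCompletion K) i) ^ 2 = -1 := by rw [← map_pow, hi, map_neg, map_one]
  have h2' : (2 : v.adicCompletion K) ≠ 0 := by
    have e : (2 : v.adicCompletion K) = algebraMap K _ 2 := by rw [map_ofNat]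
    rw [e]
    exact hne h20
  have hφ4 : φ 4 = 4 := map_ofNat φ 4
  -- the squares
  have hsq : ∀ q : GaussianInt, (⟨1, 1⟩ : GaussianInt) ∣ q →
      ∃ z : v.adicCompletion K, algebraMap K (v.adicCompletion K) (φ (1 + 4 * q)) = z ^ 2 := by
    rintro q ⟨c, rfl⟩
    have h5 : v.valuation K (φ (⟨1, 1⟩ * c)) < 1 := by
      rw [map_mul, ← hjdef, map_mul]
      exact mul_lt_one_of_lt_of_le hvj (hφ c)
    obtain ⟨z, hz⟩ := exists_sqrt v (algebraMap K (v.adicCompletion K) (4 * φ (⟨1, 1⟩ * c))) (by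
      rw [vv_coe, h4v, map_mul]
      exact mul_lt_of_lt_one_right (zero_lt_iff.2 hv40) h5)
    refine ⟨z, ?_⟩
    rw [hz, ← map_one (algebraMap K (v.adicCompletion K)), ← map_add]
    congr 1
    rw [map_add, map_one, map_mul φ 4, hφ4]
  obtain ⟨m, hm⟩ := hd
  have hdm : d = 1 + 4 * m := by rw [← hm]; ring
  have hvd : v.valuation K (φ d) = 1 := by
    have e : φ d = 1 + 4 * φ m := by rw [hdm, map_add, map_one, map_mul, hφ4]
    have h5 : v.valuation K (4 * φ m) < 1 := by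
      rw [map_mul]
      exact mul_lt_one_of_lt_of_le hv41 (hφ m)
    rw [e, Valuation.map_add_eq_of_lt_left _ (by rwa [map_one]), map_one]
  have hd0 : φ d ≠ 0 := by
    intro h
    rw [h, map_zero] at hvd
    exact zero_ne_one hvd
  have hd0' := hne hd0
  rcases gauss_par m with hpar | hpar
  · -- `d` is a square
    obtain ⟨z, hz⟩ := hsq m hpar
    rw [← hdm] at hz
    have hgen : ∀ e : K, v.valuation K e ≤ 1 → ∃ t w : v.adicCompletion K, t ≠ 0 ∧
        algebraMap K (v.adicCompletion K) (φ d) * t ^ 4 + algebraMap K (v.adicCompletion K) e = w ^ 2 := by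
      intro e he
      obtain ⟨w, hw⟩ := sq_add (v := v) (x := algebraMap K (v.adicCompletion K) (φ d * (4⁻¹) ^ 4))
        (y := algebraMap K (v.adicCompletion K) e) (z := z * algebraMap K (v.adicCompletion K) (4⁻¹ ^ 2)) (by
          rw [map_mul, hz, mul_pow, ← map_pow]
          congr 2
          ring) (hne (mul_ne_zero hd0 (pow_ne_zero 4 (inv_ne_zero h40)))) (by
          rw [h4v, vv_coe, vv_coe, map_mul, hvd, one_mul, map_pow, map_inv₀]
          refine lt_of_le_of_lt he ?_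
          have h5 : v.valuation K 4 * ((v.valuation K 4)⁻¹) ^ 4 = ((v.valuation K 4)⁻¹) ^ 3 := by
            rw [pow_succ' _ 3, ← mul_assoc, mul_inv_cancel₀ hv40, one_mul]
          rw [h5]
          exact one_lt_pow₀ ((one_lt_inv₀ (zero_lt_iff.2 hv40)).2 hv41) three_ne_zero)
      refine ⟨algebraMap K (v.adicCompletion K) 4⁻¹, w, hne (inv_ne_zero h40), ?_⟩
      rw [← hw, map_mul, map_pow]
    obtain ⟨t, w, ht, h⟩ := hgen (φ d') (hφ d')
    obtain ⟨t', w', ht', h'⟩ := hgen (φ (-(d * d' ^ 2))) (hφ _)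
    refine ⟨LC0_of hi' h2' hd0' ht ?_ h, LC0_of hi' h2' hd0' ht' ?_ h'⟩
    · rw [map_mul φ, map_mul]
    · rw [← map_mul, ← map_mul φ, ← map_pow φ, ← map_neg φ]
      congr 2
      ring
  · -- `t = 1 / (1 + i)`
    have hj0 : j ≠ 0 := by
      intro h
      rw [h, zero_pow two_ne_zero] at hj2
      have hi0 : i ≠ 0 := by
        rintro rfl
        rw [zero_pow two_ne_zero] at hi
        exact one_ne_zero (by linear_combination hi : (1 : K) = 0)
      exact mul_ne_zero h20 hi0 hj2.symm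
    have hj4 : (j⁻¹) ^ 4 = -(1 / 4) := by
      have h5 : j ^ 4 = -4 := by
        have : j ^ 4 = (j ^ 2) ^ 2 := by ring
        rw [this, hj2]
        linear_combination 4 * hi
      rw [inv_pow, h5]
      norm_num
    have hgen : ∀ (e : K) (q : GaussianInt), (⟨1, 1⟩ : GaussianInt) ∣ q → φ d - 4 * e = φ (1 + 4 * q) →
        ∃ t w : v.adicCompletion K, t ≠ 0 ∧
        algebraMap K (v.adicCompletion K) (φ d) * t ^ 4 + algebraMap K (v.adicCompletion K) e = w ^ 2 := by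
      intro e q hq he
      obtain ⟨z, hz⟩ := hsq q hq
      refine ⟨algebraMap K (v.adicCompletion K) j⁻¹, algebraMap K (v.adicCompletion K) (i / 2) * z,
        hne (inv_ne_zero hj0), ?_⟩
      rw [mul_pow, ← hz, ← map_pow, ← map_pow, ← map_mul, ← map_mul, ← map_add]
      congr 1
      rw [hj4, ← he, div_pow, hi]
      ring
    obtain ⟨n, hn⟩ := hd'
    obtain ⟨n', hn'⟩ := hpar
    have hd'n : d' = 1 + ⟨1, 1⟩ * n := by rw [← hn]; ring
    have hmn : m = 1 + ⟨1, 1⟩ * n' := by rw [← hn']; ring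
    have h2g : (2 : GaussianInt) = ⟨1, 1⟩ * ⟨1, -1⟩ := by
      rw [Zsqrtd.ext_iff]
      constructor
      · rw [Zsqrtd.re_mul]
        show ((2 : ℤ) : GaussianInt).re = _
        norm_num
      · rw [Zsqrtd.im_mul]
        show ((2 : ℤ) : GaussianInt).im = _
        norm_num
    obtain ⟨t, w, ht, h⟩ := hgen (φ d') (m - d') ⟨n' - n, by rw [hd'n, hmn]; ring⟩ (by
      rw [← hφ4, ← map_mul, ← map_sub]
      congr 1
      rw [hdm]
      ring)
    obtain ⟨t', w', ht', h'⟩ := hgen (φ (-(d * d' ^ 2))) (m + d' ^ 2 + 4 * (m * d' ^ 2))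
      ⟨n' + (2 * n + ⟨1, 1⟩ * n ^ 2) + ⟨1, -1⟩ + 2 * (⟨1, -1⟩ * (m * d' ^ 2)), by
        have e4 : (4 : GaussianInt) = 2 * (⟨1, 1⟩ * ⟨1, -1⟩) := by rw [← h2g]; norm_num
        have e5 : m + d' ^ 2 = ⟨1, 1⟩ * n' + ⟨1, 1⟩ * (2 * n + ⟨1, 1⟩ * n ^ 2) + 2 := by
          rw [hd'n, hmn]; ring
        rw [e5, e4]
        rw [show (⟨1, 1⟩ : GaussianInt) * n' + ⟨1, 1⟩ * (2 * n + ⟨1, 1⟩ * n ^ 2) + 2 =
          ⟨1, 1⟩ * n' + ⟨1, 1⟩ * (2 * n + ⟨1, 1⟩ * n ^ 2) + ⟨1, 1⟩ * ⟨1, -1⟩ by rw [← h2g]]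
        ring⟩ (by
      rw [← hφ4, ← map_mul, ← map_sub]
      congr 1
      rw [hdm]
      ring)
    refine ⟨LC0_of hi' h2' hd0' ht ?_ h, LC0_of hi' h2' hd0' ht' ?_ h'⟩
    · rw [map_mul φ, map_mul]
    · rw [← map_mul, ← map_mul φ, ← map_pow φ, ← map_neg φ]
      congr 2
      ring

end

end Pool.Agent.Q261.GN
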