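import Pool.Agent.Q155.GN.Stm3
import Pool.Agent.Q261.GN.LocB
import Pool.Agent.Q261.GN.Lgd

set_option autoImplicit false

/-! # Project GN: `S_LTW` -/

namespace Pool.Agent.Q261.GN

open NumberField IsDedekindDomain
open H385 (ZI)
open Q155.GN (LC S_LTW)
open Pool.Agent.Y715.Z (em0)

theorem ltw : S_LTW := by
  intro K _ _ e v h2 d d' hd hd'
  have hφ : ∀ a : ZI, v.valuation K (em0 e a) ≤ 1 := fun a => HeightOneSpectrum.valuation_le_one _ _
  obtain ⟨h3, h4⟩ := ltw0 (v := v) (φ := (em0 e : ZI →+* K)) hφ h2 hd hd'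
  exact ⟨LC_iff.1 h3, LC_iff.1 h4⟩

end Pool.Agent.Q261.GN
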