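import Pool.Agent.Q155.GN.Stm2

set_option autoImplicit false

/-! # Project GN: `S_ROOT` -/

namespace Pool.Agent.Q261.GN

open Finset Matrix
open Q155.GN (KF lapM S_ROOT)
open Q155.NL (NU kU NU_11 NU_12 NU_21 NU_22)
open Q155.KT (kz z2_dbl)
open scoped Classical

section
variable {n m : Type} [Fintype n] [DecidableEq n] [Fintype m] [DecidableEq m]

lemma sum_split {φ : m → n} (hφ : Function.Injective φ) {b : n} (hb : ∀ p, p ≠ b ↔ ∃ i, φ i = p) (f : n → ZMod 2) :
    ∑ p, f p = f b + ∑ j, f (φ j) := by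
  rw [← Finset.add_sum_erase univ f (Finset.mem_univ b)]
  congr 1
  have e : univ.erase b = univ.map ⟨φ, hφ⟩ := by
    ext p
    rw [Finset.mem_erase, Finset.mem_map]
    simp only [Finset.mem_univ, and_true, true_and, Function.Embedding.coeFn_mk]
    exact hb p
  rw [e, Finset.sum_map]
  rfl

/-- deleting a row and a column of a Laplacian -/
theorem kz_root {N : Matrix n n (ZMod 2)} (hN : N.IsSymm) (hrow : ∀ p, ∑ q, N p q = 0) {φ : m → n}
    (hφ : Function.Injective φ) {b : n} (hb : ∀ p, p ≠ b ↔ ∃ i, φ i = p) : kz N = 2 * kz (N.submatrix φ φ) := by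
  have hrest : ∀ (y : n → ZMod 2) (c : ZMod 2), y b = c → ∀ p, (N *ᵥ y) p = ∑ j, N p (φ j) * (y (φ j) + c) := by
    intro y c hc p
    have h1 : (N *ᵥ y) p = ∑ q, N p q * (y q + c) := by
      have h2 : ∑ q, N p q * (y q + c) = ∑ q, N p q * y q + (∑ q, N p q) * c := by
        rw [Finset.sum_mul, ← Finset.sum_add_distrib]
        exact Finset.sum_congr rfl fun q _ => by ring
      rw [h2, hrow, zero_mul, add_zero]
      rfl
    rw [h1, sum_split hφ hb, hc, z2_dbl, mul_zero, zero_add]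
  have hcol : ∀ q, ∑ p, N p q = 0 := by
    intro q
    rw [← hrow q]
    exact Finset.sum_congr rfl fun p _ => hN.apply q p
  have hlast : ∀ y : n → ZMod 2, (∀ i, (N *ᵥ y) (φ i) = 0) → N *ᵥ y = 0 := by
    intro y hy
    have h1 : ∑ p, (N *ᵥ y) p = 0 := by
      have h2 : ∑ p, (N *ᵥ y) p = ∑ q, (∑ p, N p q) * y q := by
        simp only [Matrix.mulVec, dotProduct, Finset.sum_mul]
        exact Finset.sum_comm
      rw [h2]
      exact Finset.sum_eq_zero fun q _ => by rw [hcol, zero_mul]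
    rw [sum_split hφ hb, Finset.sum_eq_zero fun j _ => hy j, add_zero] at h1
    funext p
    by_cases hp : p = b
    · rw [hp, h1]; rfl
    · obtain ⟨i, rfl⟩ := (hb p).1 hp
      rw [hy i]; rfl
  have hext : ∀ (z : m → ZMod 2) (c : ZMod 2), ∃ y : n → ZMod 2, y b = c ∧ ∀ i, y (φ i) = z i + c := by
    intro z c
    refine ⟨fun p => Function.extend φ z (fun _ => 0) p + c, ?_, fun i => ?_⟩
    · show Function.extend φ z (fun _ => 0) b + c = c
      rw [Function.extend_apply' _ _ _ (fun h => (hb b).2 h rfl), zero_add]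
    · show Function.extend φ z (fun _ => 0) (φ i) + c = _
      rw [hφ.extend_apply]
  have e : {y : n → ZMod 2 // N *ᵥ y = 0} ≃ ZMod 2 × {z : m → ZMod 2 // N.submatrix φ φ *ᵥ z = 0} := by
    refine Equiv.ofBijective (fun y => (y.1 b, ⟨fun i => y.1 (φ i) + y.1 b, ?_⟩)) ⟨?_, ?_⟩
    · funext i
      have h1 := hrest y.1 (y.1 b) rfl (φ i)
      rw [y.2] at h1
      exact h1.symm
    · intro y y' h
      have h1 : y.1 b = y'.1 b := congrArg Prod.fst h
      have h2 := congrArg (fun t : ZMod 2 × {z : m → ZMod 2 // N.submatrix φ φ *ᵥ z = 0} => t.2.1) h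
      refine Subtype.ext (funext fun p => ?_)
      by_cases hp : p = b
      · rw [hp, h1]
      · obtain ⟨i, rfl⟩ := (hb p).1 hp
        have h3 : y.1 (φ i) + y.1 b = y'.1 (φ i) + y'.1 b := congrFun h2 i
        rw [h1] at h3
        exact add_right_cancel h3
    · rintro ⟨c, z, hz⟩
      obtain ⟨y, hy1, hy2⟩ := hext z c
      have hy : N *ᵥ y = 0 := by
        refine hlast y fun i => ?_
        rw [hrest y c hy1]
        have h1 : (N.submatrix φ φ *ᵥ z) i = 0 := by rw [hz]; rfl
        rw [← h1]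
        show _ = ∑ j, N (φ i) (φ j) * z j
        refine Finset.sum_congr rfl fun j _ => ?_
        rw [hy2, add_assoc, z2_dbl, add_zero]
      refine ⟨⟨y, hy⟩, ?_⟩
      refine Prod.ext hy1 (Subtype.ext (funext fun i => ?_))
      show y (φ i) + y b = z i
      rw [hy2, hy1, add_assoc, z2_dbl, add_zero]
  unfold kz
  rw [Nat.card_congr e, Nat.card_prod, Nat.card_zmod]

end

theorem root : S_ROOT := by
  intro τ ι _ _ M v U x b J1 hM hb hJ
  unfold KF kU
  have hsub : ∀ i : ↥(J1 ∩ U), (i : ι) ∈ univ ∩ U := fun i =>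
    Finset.mem_inter.2 ⟨Finset.mem_univ _, (Finset.mem_inter.1 i.2).2⟩
  obtain ⟨φ, hφd⟩ : ∃ φ : τ ⊕ ↥(J1 ∩ U) → τ ⊕ ↥(univ ∩ U), φ = Sum.map id fun i => ⟨i.1, hsub i⟩ := ⟨_, rfl⟩
  have hφ1 : ∀ r, φ (Sum.inl r) = Sum.inl r := fun r => by rw [hφd]; rfl
  have hφ2 : ∀ i, φ (Sum.inr i) = Sum.inr ⟨i.1, hsub i⟩ := fun i => by rw [hφd]; rfl
  have hφi : Function.Injective φ := by
    rintro (r | i) (r' | i') h
    · rw [hφ1, hφ1] at h
      rw [Sum.inl_injective h]
    · rw [hφ1, hφ2] at h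
      exact absurd h Sum.inl_ne_inr
    · rw [hφ1, hφ2] at h
      exact absurd h Sum.inr_ne_inl
    · rw [hφ2, hφ2] at h
      have h1 : (i : ι) = i' := congrArg (fun z : ↥(univ ∩ U) => (z : ι)) (Sum.inr_injective h)
      exact congrArg Sum.inr (Subtype.ext h1)
  have hbr : ∀ p, p ≠ Sum.inr ⟨b, Finset.mem_inter.2 ⟨Finset.mem_univ _, hb⟩⟩ ↔ ∃ i, φ i = p := by
    rintro (r | i)
    · exact ⟨fun _ => ⟨Sum.inl r, hφ1 r⟩, fun _ => Sum.inl_ne_inr⟩
    · constructor
      · intro h
        have h1 : (i : ι) ≠ b := fun h' => h (congrArg Sum.inr (Subtype.ext h'))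
        have h2 : (i : ι) ∈ J1 ∩ U := by
          rw [hJ, Finset.mem_erase]
          exact ⟨h1, (Finset.mem_inter.1 i.2).2⟩
        exact ⟨Sum.inr ⟨i.1, h2⟩, hφ2 _⟩
      · rintro ⟨(r | j), hj⟩ h
        · rw [hφ1] at hj
          exact Sum.inl_ne_inr hj
        · rw [hφ2] at hj
          have h1 : (j : ι) = b := congrArg (fun z : ↥(univ ∩ U) => (z : ι)) (Sum.inr_injective (hj.trans h))
          have h2 : (j : ι) ∈ J1 ∩ U := j.2
          have h3 : (j : ι) ∈ U.erase b := by rw [← hJ]; exact h2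
          exact (Finset.mem_erase.1 h3).1 h1
  have hlM : (lapM M).IsSymm := by
    refine Matrix.IsSymm.ext fun i j => ?_
    unfold lapM
    rw [Matrix.of_apply, Matrix.of_apply]
    by_cases h : i = j
    · subst h; rfl
    · rw [if_neg h, if_neg (fun h' => h h'.symm)]
      exact hM.apply i j
  have hlrow : ∀ r, ∑ r', lapM M r r' = 0 := by
    intro r
    rw [← Finset.add_sum_erase univ _ (Finset.mem_univ r)]
    have h1 : lapM M r r = ∑ r'' ∈ univ.erase r, M r r'' := by
      unfold lapM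
      rw [Matrix.of_apply, if_pos rfl]
    have h2 : ∑ r' ∈ univ.erase r, lapM M r r' = ∑ r'' ∈ univ.erase r, M r r'' := by
      refine Finset.sum_congr rfl fun r' hr' => ?_
      unfold lapM
      rw [Matrix.of_apply, if_neg (Finset.ne_of_mem_erase hr').symm]
    rw [h1, h2, z2_dbl]
  have hN : (NU (lapM M) v (fun i => ∑ r, v i r) univ U x).IsSymm := by
    refine Matrix.IsSymm.ext ?_
    rintro (r | i) (r' | i')
    · rw [NU_11, NU_11, hlM.apply]
      by_cases h : r = r'
      · subst h; rfl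
      · rw [if_neg h, if_neg (fun h' => h h'.symm)]
    · rw [NU_12, NU_21]
    · rw [NU_12, NU_21]
    · rw [NU_22, NU_22]
      by_cases h : i = i'
      · subst h; rfl
      · rw [if_neg h, if_neg (fun h' => h h'.symm)]
        ring
  have hsum : ∀ g : ι → ZMod 2, ∑ i : ↥(univ ∩ U), g i = ∑ i ∈ U, g i := by
    intro g
    rw [Finset.sum_coe_sort (univ ∩ U) g, Finset.univ_inter]
  have hrow : ∀ p, ∑ q, NU (lapM M) v (fun i => ∑ r, v i r) univ U x p q = 0 := by
    rintro (r | i)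
    · rw [Fintype.sum_sum_type]
      have h1 : ∑ r', NU (lapM M) v (fun i => ∑ r, v i r) univ U x (Sum.inl r) (Sum.inl r') = ∑ i ∈ U, v i r := by
        have h2 : ∀ r', NU (lapM M) v (fun i => ∑ r, v i r) univ U x (Sum.inl r) (Sum.inl r') =
            lapM M r r' + if r = r' then ∑ i ∈ U, v i r else 0 := fun r' => NU_11 U x r r'
        rw [Finset.sum_congr rfl fun r' _ => h2 r', Finset.sum_add_distrib, hlrow, zero_add, Finset.sum_ite_eq,
          if_pos (Finset.mem_univ r)]
      have h3 : ∑ i, NU (lapM M) v (fun i => ∑ r, v i r) univ U x (Sum.inl r) (Sum.inr i) = ∑ i ∈ U, v i r :=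
        hsum fun i => v i r
      rw [h1, h3, z2_dbl]
    · rw [Fintype.sum_sum_type]
      have h1 : ∑ r, NU (lapM M) v (fun i => ∑ r, v i r) univ U x (Sum.inr i) (Sum.inl r) = ∑ r, v i r := rfl
      have hiU : (i : ι) ∈ U := (Finset.mem_inter.1 i.2).2
      have h3 : ∑ j, NU (lapM M) v (fun i => ∑ r, v i r) univ U x (Sum.inr i) (Sum.inr j) = ∑ r, v i r := by
        have h2 : ∀ j : ↥(univ ∩ U), NU (lapM M) v (fun i => ∑ r, v i r) univ U x (Sum.inr i) (Sum.inr j) =
            (if (i : ι) = j then ∑ r, v i r + ∑ l ∈ U, (x i l + x l i) else 0) +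
              (x i j + x j i) := by
          intro j
          rw [NU_22]
          by_cases h : i = j
          · subst h
            rw [if_pos rfl, if_pos rfl, z2_dbl, add_zero]
          · rw [if_neg h, if_neg (fun h' => h (Subtype.ext h')), zero_add]
        rw [Finset.sum_congr rfl fun j _ => h2 j, Finset.sum_add_distrib,
          hsum fun j => if (i : ι) = j then ∑ r, v i r + ∑ l ∈ U, (x i l + x l i) else 0,
          hsum fun j => x i j + x j i, Finset.sum_ite_eq, if_pos hiU, add_assoc, z2_dbl, add_zero]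
      rw [h1, h3, z2_dbl]
  rw [kz_root hN hrow hφi hbr]
  congr 2
  ext p q
  rw [Matrix.submatrix_apply]
  rcases p with r | i <;> rcases q with r' | j
  · rw [hφ1, hφ1, NU_11, NU_11]
  · rw [hφ1, hφ2]; rfl
  · rw [hφ1, hφ2]; rfl
  · rw [hφ2, hφ2, NU_22, NU_22]
    by_cases h : i = j
    · subst h
      rw [if_pos rfl, if_pos rfl]
    · rw [if_neg h, if_neg]
      intro h'
      exact h (Subtype.ext (congrArg (fun z : ↥(univ ∩ U) => (z : ι)) h'))

end Pool.Agent.Q261.GN
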