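import Pool.Agent.Q155.GN.Stm2

set_option autoImplicit false

/-! # Project GN: `S_TAB` -/

namespace Pool.Agent.Q261.GN

open Finset Matrix
open H385 (ZI nrm)
open Pool.Agent.Y699 (PP)
open Q155.GN (s Kl bb mem_Kl Tu SymP KF hv lapM S_TAB)
open Q155.NL (NU NU_11 NU_12 NU_21 NU_22)
open Q155.KT (kz z2_dbl)
open scoped Classical

/-- the kernel of a reindexed matrix (also `Q155.KT.kz_submatrix`) -/
theorem kz_reindex {m n : Type} [Fintype m] [DecidableEq m] [Fintype n] [DecidableEq n]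
    (e : m ≃ n) (M : Matrix n n (ZMod 2)) : kz (M.submatrix e e) = kz M := by
  unfold kz
  refine Nat.card_congr (Equiv.subtypeEquiv (e.arrowCongr (Equiv.refl _)) ?_)
  intro x
  rw [Matrix.submatrix_mulVec_equiv]
  have h1 : (e.arrowCongr (Equiv.refl (ZMod 2))) x = x ∘ e.symm := rfl
  rw [h1]
  constructor
  · intro h
    funext j
    have := congrFun h (e.symm j)
    simpa using this
  · intro h
    rw [h]
    rfl

/-- the matrix of a set -/
noncomputable def mS (S : Finset ZI) : Matrix ↥S ↥S (ZMod 2) :=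
  Matrix.of fun p q => s p q + if p = q then ∑ r ∈ S, s p r else 0

theorem mS_mulVec {S : Finset ZI} (w : ZI → ZMod 2) (p : ↥S) :
    (mS S *ᵥ fun q : ↥S => w q) p = ∑ q ∈ S, s p q * (w q + w p) := by
  have h1 : (mS S *ᵥ fun q : ↥S => w q) p =
      ∑ q : ↥S, (s p q * w q + if p = q then (∑ r ∈ S, s p r) * w q else 0) := by
    refine Finset.sum_congr rfl fun q _ => ?_
    show (s p q + if p = q then ∑ r ∈ S, s p r else 0) * w q = _
    rw [add_mul, ite_mul, zero_mul]
  rw [h1, Finset.sum_add_distrib, Finset.sum_ite_eq, if_pos (Finset.mem_univ p)]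
  have h2 : ∑ q : ↥S, s p q * w q = ∑ q ∈ S, s p q * w q := Finset.sum_coe_sort S fun q => s p q * w q
  have h3 : ∑ q ∈ S, s p q * (w q + w p) = ∑ q ∈ S, s p q * w q + (∑ q ∈ S, s p q) * w p := by
    rw [Finset.sum_mul, ← Finset.sum_add_distrib]
    exact Finset.sum_congr rfl fun q _ => by ring
  rw [h3, h2]

/-- **The kernel of the Laplacian is the kernel of the matrix.** -/
theorem kz_mS (S : Finset ZI) : kz (mS S) = 2 ^ Module.finrank (ZMod 2) (Kl S) := by
  have e : {w : ↥S → ZMod 2 // mS S *ᵥ w = 0} ≃ Kl S :=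
    { toFun := fun w => ⟨fun n => if h : n ∈ S then w.1 ⟨n, h⟩ else 0, by
          have h0 : ∀ p, p ∉ S → (fun n => if h : n ∈ S then w.1 ⟨n, h⟩ else 0 : ZI → ZMod 2) p = 0 :=
            fun p hp => dif_neg hp
          rw [mem_Kl]
          refine ⟨h0, fun p hp => ?_⟩
          have h1 := mS_mulVec (S := S) (fun n => if h : n ∈ S then w.1 ⟨n, h⟩ else 0) ⟨p, hp⟩
          rw [← h1]
          have h2 : (fun q : ↥S => (fun n => if h : n ∈ S then w.1 ⟨n, h⟩ else 0 : ZI → ZMod 2) q) = w.1 := by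
            funext q
            exact dif_pos q.2
          rw [h2, w.2]
          rfl⟩
      invFun := fun x => ⟨fun q => x.1 q, by
          funext p
          obtain ⟨h1, h2⟩ := mem_Kl.1 x.2
          rw [mS_mulVec x.1 p]
          exact h2 p p.2⟩
      left_inv := fun w => by
        refine Subtype.ext (funext fun q => ?_)
        exact dif_pos q.2
      right_inv := fun x => by
        refine Subtype.ext (funext fun n => ?_)
        show (if h : n ∈ S then x.1 n else 0) = x.1 n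
        by_cases h : n ∈ S
        · rw [dif_pos h]
        · rw [dif_neg h, (mem_Kl.1 x.2).1 n h] }
  have hfin : Finite (Kl S) := Finite.of_equiv _ e
  unfold kz
  rw [Nat.card_congr e, Module.natCard_eq_pow_finrank (K := ZMod 2), Nat.card_zmod]

section
variable {ι : Type} [Fintype ι] {T : Finset ZI} {p : ι → ZI}

/-- the indices -/
noncomputable def eqT (hp : Function.Injective p) (hd : ∀ i, p i ∉ T) (U : Finset ι) :
    ↥T ⊕ ↥(univ ∩ U) ≃ ↥(T ∪ U.image p) :=
  Equiv.ofBijective (Sum.elim (fun u => ⟨u.1, Finset.mem_union_left _ u.2⟩)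
    fun i => ⟨p i, Finset.mem_union_right _ (Finset.mem_image_of_mem _ (Finset.mem_inter.1 i.2).2)⟩) (by
    constructor
    · rintro (u | i) (u' | i') h
      · exact congrArg Sum.inl (Subtype.ext (congrArg (fun z : ↥(T ∪ U.image p) => z.1) h))
      · have h1 : u.1 = p i' := congrArg (fun z : ↥(T ∪ U.image p) => z.1) h
        exact absurd (h1 ▸ u.2) (hd i')
      · have h1 : p i = u'.1 := congrArg (fun z : ↥(T ∪ U.image p) => z.1) h
        exact absurd (h1.symm ▸ u'.2) (hd i)
      · have h1 : p i = p i' := congrArg (fun z : ↥(T ∪ U.image p) => z.1) h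
        exact congrArg Sum.inr (Subtype.ext (hp h1))
    · rintro ⟨n, hn⟩
      rcases Finset.mem_union.1 hn with h | h
      · exact ⟨Sum.inl ⟨n, h⟩, rfl⟩
      · obtain ⟨i, hi, rfl⟩ := Finset.mem_image.1 h
        exact ⟨Sum.inr ⟨i, Finset.mem_inter.2 ⟨Finset.mem_univ _, hi⟩⟩, rfl⟩)

theorem eqT_1 (hp : Function.Injective p) (hd : ∀ i, p i ∉ T) (U : Finset ι) (u : ↥T) :
    ((eqT hp hd U (Sum.inl u) : ↥(T ∪ U.image p)) : ZI) = u := rfl

theorem eqT_2 (hp : Function.Injective p) (hd : ∀ i, p i ∉ T) (U : Finset ι) (i : ↥(univ ∩ U)) :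
    ((eqT hp hd U (Sum.inr i) : ↥(T ∪ U.image p)) : ZI) = p i := rfl

theorem sum_TU (hp : Function.Injective p) (hd : ∀ i, p i ∉ T) (U : Finset ι) (g : ZI → ZMod 2) :
    ∑ q ∈ T ∪ U.image p, g q = ∑ q ∈ T, g q + ∑ i ∈ U, g (p i) := by
  rw [Finset.sum_union, Finset.sum_image fun i _ j _ h => hp h]
  rw [Finset.disjoint_left]
  intro q hq hq'
  obtain ⟨i, -, rfl⟩ := Finset.mem_image.1 hq'
  exact hd i hq

end

theorem tab : S_TAB := by
  intro hS ι _ S₁ T₀ p U X hT0 hTS hTu hX
  obtain ⟨hinj, hpp⟩ := hTu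
  have hd : ∀ i, p i ∉ T₀ := fun i h => (hpp i).2 (hTS h)
  have hP : ∀ i, PP (p i) := fun i => (hpp i).1
  have hmain : KF (Matrix.of fun u u' : ↥T₀ => s u u') (fun i (u : ↥T₀) => s u (p i)) U X =
      2 ^ Module.finrank (ZMod 2) (Kl (T₀ ∪ U.image p)) := by
    rw [← kz_mS, ← kz_reindex (eqT hinj hd U) (mS (T₀ ∪ U.image p))]
    unfold KF
    congr 1
    ext a b
    rw [Matrix.submatrix_apply]
    show _ = s ((eqT hinj hd U a : ↥(T₀ ∪ U.image p)) : ZI) ((eqT hinj hd U b : ↥(T₀ ∪ U.image p)) : ZI) +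
      if eqT hinj hd U a = eqT hinj hd U b then
        ∑ r ∈ T₀ ∪ U.image p, s ((eqT hinj hd U a : ↥(T₀ ∪ U.image p)) : ZI) r else 0
    rw [sum_TU hinj hd]
    rcases a with u | i <;> rcases b with u' | i'
    · rw [NU_11, eqT_1, eqT_1]
      unfold lapM
      rw [Matrix.of_apply]
      by_cases h : u = u'
      · subst h
        rw [if_pos rfl, if_pos rfl, if_pos rfl, hS.self u (hT0 u u.2), zero_add]
        congr 1
        have h1 : ∑ q ∈ T₀, s u q = ∑ q : ↥T₀, s u q := (Finset.sum_coe_sort T₀ fun q => s u q).symm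
        rw [h1, ← Finset.add_sum_erase univ _ (Finset.mem_univ u), hS.self u (hT0 u u.2), zero_add]
        refine Finset.sum_congr ?_ fun _ _ => rfl
        ext r
        simp only [Finset.mem_erase]
      · rw [if_neg h, if_neg h, if_neg (fun h' => h (Sum.inl_injective ((eqT hinj hd U).injective h')))]
        rfl
    · rw [NU_12, eqT_1, eqT_2, if_neg (fun h' => Sum.inl_ne_inr ((eqT hinj hd U).injective h')), add_zero]
    · rw [NU_21, eqT_1, eqT_2, if_neg (fun h' => Sum.inr_ne_inl ((eqT hinj hd U).injective h')), add_zero]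
      exact hS.symm _ _ (hT0 _ u'.2) (hP _)
    · rw [NU_22, eqT_2, eqT_2]
      by_cases h : i = i'
      · subst h
        rw [if_pos rfl, if_pos rfl, hS.self _ (hP _), zero_add]
        congr 1
        · have h1 : ∑ q ∈ T₀, s (p i) q = ∑ q : ↥T₀, s (p i) q := (Finset.sum_coe_sort T₀ fun q => s (p i) q).symm
          rw [h1]
          exact Finset.sum_congr rfl fun u _ => hS.symm _ _ (hT0 _ u.2) (hP _)
        · refine Finset.sum_congr rfl fun l _ => ?_
          by_cases hl : (i : ι) = l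
          · rw [← hl, z2_dbl, hS.self _ (hP _)]
          · exact hX _ _ hl
      · rw [if_neg h, if_neg (fun h' => h (Sum.inr_injective ((eqT hinj hd U).injective h'))), add_zero]
        exact hX _ _ fun h' => h (Subtype.ext h')
  refine ⟨hmain.symm, ?_⟩
  rw [hmain]
  unfold bb hv
  rcases Nat.eq_zero_or_pos (Module.finrank (ZMod 2) (Kl (T₀ ∪ U.image p))) with h | h
  · rw [h]
    rfl
  · obtain ⟨k, hk⟩ : ∃ k, Module.finrank (ZMod 2) (Kl (T₀ ∪ U.image p)) = k + 1 := ⟨_, (Nat.succ_pred_eq_of_pos h).symm⟩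
    rw [hk, Nat.add_sub_cancel, pow_succ, Nat.mul_div_cancel _ (by norm_num)]
    exact (max_eq_right (Nat.one_le_two_pow)).symm

end Pool.Agent.Q261.GN
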